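import Pool.Agent.N965.LN.Cnt

set_option autoImplicit false

/-!
# The number of the integers with a small product of distances (from the count for boxes, library N965)
-/

namespace Pool.Agent.U300.LX

open Finset
open Pool.Agent.N965.LN (dn Cnt Sch Indep)

lemma poly_le (m : ℕ) {τ : ℝ} (hτ : 0 < τ) :
    ∃ C : ℝ, 0 < C ∧ ∀ K : ℕ, ((K : ℝ) + 1) ^ m ≤ C * ((2 : ℝ) ^ K) ^ τ := by
  obtain ⟨r, hr⟩ : ∃ r : ℝ, r = (2 : ℝ) ^ (-τ) := ⟨_, rfl⟩
  have hr0 : 0 < r := by rw [hr]; positivity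
  have hr1 : r < 1 := by
    rw [hr]
    exact Real.rpow_lt_one_of_one_lt_of_neg (by norm_num) (by linarith)
  have h1 : Summable (fun n : ℕ => (n : ℝ) ^ m * r ^ n) :=
    summable_pow_mul_geometric_of_norm_lt_one m (by rw [Real.norm_eq_abs, abs_of_pos hr0]; exact hr1)
  obtain ⟨S, hS⟩ : ∃ S : ℝ, S = ∑' n : ℕ, (n : ℝ) ^ m * r ^ n := ⟨_, rfl⟩
  have h2 : ∀ n : ℕ, (n : ℝ) ^ m * r ^ n ≤ S := fun n => by
    rw [hS]
    exact h1.le_tsum n (fun j _ => by positivity)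
  have hS0 : 0 ≤ S := le_trans (by positivity) (h2 0)
  refine ⟨S / r + 1, by positivity, fun K => ?_⟩
  have h3 := h2 (K + 1)
  push_cast at h3
  have h4 : ((2 : ℝ) ^ K) ^ τ * r ^ K = 1 := by
    rw [hr, ← Real.rpow_natCast, ← Real.rpow_mul (by norm_num), ← Real.rpow_natCast ((2 : ℝ) ^ (-τ)),
      ← Real.rpow_mul (by norm_num), ← Real.rpow_add (by norm_num)]
    have : (K : ℝ) * τ + -τ * K = 0 := by ring
    rw [this, Real.rpow_zero]
  have h5 : 0 < r ^ K := by positivity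
  have h6 : (((K : ℝ) + 1) ^ m) * r ^ K ≤ S / r := by
    rw [le_div_iff₀ hr0]
    calc ((K : ℝ) + 1) ^ m * r ^ K * r = ((K : ℝ) + 1) ^ m * r ^ (K + 1) := by ring
      _ ≤ S := h3
  have h7 : (((K : ℝ) + 1) ^ m) = (((K : ℝ) + 1) ^ m * r ^ K) * ((2 : ℝ) ^ K) ^ τ := by
    rw [mul_assoc, mul_comm (r ^ K), h4, mul_one]
  rw [h7]
  gcongr
  linarith

lemma dn_nonneg (x : ℝ) : 0 ≤ dn x := abs_nonneg _

lemma dn_le_one (x : ℝ) : dn x ≤ 1 := (abs_sub_round x).trans (by norm_num)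

/-- The integers `n ≤ N` with `∏ ‖n ξ i‖ ≤ T`, `1 / N ≤ T`. -/
theorem count_le {m : ℕ} {ξ : Fin m → ℝ} (hξ : Cnt ξ) {τ : ℝ} (hτ : 0 < τ) :
    ∃ C : ℝ, 0 < C ∧ ∀ N : ℕ, 1 ≤ N → ∀ T : ℝ, 1 / (N : ℝ) ≤ T →
      (((Icc 1 N).filter fun n : ℕ => ∏ i, dn ((n : ℝ) * ξ i) ≤ T).card : ℝ) ≤ C * T * (N : ℝ) ^ (1 + τ) := by
  classical
  obtain ⟨C₁, hC₁, h1⟩ := hξ (τ / 2) (by positivity)
  obtain ⟨C₂, hC₂, h2⟩ := poly_le m (τ := τ / 2) (by positivity)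
  refine ⟨C₂ * C₁ * 2 ^ m * 2 ^ τ, by positivity, fun N hN T hT => ?_⟩
  have hN1 : (1 : ℝ) ≤ N := by exact_mod_cast hN
  have hN0 : (0 : ℝ) < N := by linarith
  have hT0 : 0 < T := lt_of_lt_of_le (by positivity) hT
  obtain ⟨K, hK1, hK2⟩ : ∃ K : ℕ, N ≤ 2 ^ K ∧ 2 ^ K ≤ 2 * N := by
    refine ⟨Nat.clog 2 N, Nat.le_pow_clog (by norm_num) N, ?_⟩
    rcases Nat.lt_or_ge 1 N with h | h
    · have h3 := Nat.pow_pred_clog_lt_self (b := 2) (by norm_num) h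
      have h4 : 0 < Nat.clog 2 N := Nat.clog_pos (by norm_num) h
      obtain ⟨j, hj⟩ : ∃ j, Nat.clog 2 N = j + 1 := ⟨Nat.clog 2 N - 1, by omega⟩
      rw [hj] at h3 ⊢
      simp only [Nat.pred_eq_sub_one, Nat.add_sub_cancel] at h3
      rw [pow_succ]
      omega
    · have : N = 1 := by omega
      subst this
      simp
  have hK1' : (N : ℝ) ≤ 2 ^ K := by exact_mod_cast hK1
  have hK2' : (2 : ℝ) ^ K ≤ 2 * N := by exact_mod_cast hK2
  obtain ⟨k, hk⟩ : ∃ k : ℕ → Fin m → ℕ,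
      k = fun (n : ℕ) (i : Fin m) => Nat.findGreatest (fun j => dn ((n : ℝ) * ξ i) ≤ (1 / 2 : ℝ) ^ j) K := ⟨_, rfl⟩
  have hkK : ∀ (n : ℕ) (i : Fin m), k n i ≤ K := fun n i => by
    rw [hk]
    exact Nat.findGreatest_le K
  have hkd : ∀ (n : ℕ) (i : Fin m), dn ((n : ℝ) * ξ i) ≤ (1 / 2 : ℝ) ^ (k n i) := fun n i => by
    rw [hk]
    exact Nat.findGreatest_spec (P := fun j => dn ((n : ℝ) * ξ i) ≤ (1 / 2 : ℝ) ^ j) (m := 0) (Nat.zero_le K)
      (by simpa using dn_le_one _)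
  have hkl : ∀ (n : ℕ) (i : Fin m), k n i < K → (1 / 2 : ℝ) ^ (k n i + 1) < dn ((n : ℝ) * ξ i) := fun n i h => by
    rw [hk] at h ⊢
    by_contra hcon
    exact Nat.findGreatest_is_greatest (P := fun j => dn ((n : ℝ) * ξ i) ≤ (1 / 2 : ℝ) ^ j) (Nat.lt_succ_self _) h
      (not_lt.1 hcon)
  set S := (Icc 1 N).filter fun n : ℕ => ∏ i, dn ((n : ℝ) * ξ i) ≤ T with hS
  have hmap : ∀ n ∈ S, k n ∈ Fintype.piFinset (fun _ : Fin m => range (K + 1)) := fun n _ => by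
    rw [Fintype.mem_piFinset]
    exact fun i => mem_range.2 (Nat.lt_succ_of_le (hkK n i))
  have hfib : ∀ v ∈ Fintype.piFinset (fun _ : Fin m => range (K + 1)),
      ((S.filter (fun n => k n = v)).card : ℝ) ≤ C₁ * N * (2 ^ m * T) * ((2 : ℝ) ^ K) ^ (τ / 2) := by
    intro v hv
    rw [Fintype.mem_piFinset] at hv
    rcases (S.filter (fun n => k n = v)).eq_empty_or_nonempty with he | ⟨n₀, hn₀⟩
    · rw [he]
      simp only [card_empty, Nat.cast_zero]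
      positivity
    obtain ⟨hn1, hn2⟩ := mem_filter.1 hn₀
    have hn3 := (mem_filter.1 hn1).2
    have hprod : ∏ i, (1 / 2 : ℝ) ^ (v i) ≤ 2 ^ m * T := by
      by_cases hall : ∀ i, v i < K
      · have h3 : ∏ i, (1 / 2 : ℝ) ^ (v i) ≤ ∏ i, (2 * dn ((n₀ : ℝ) * ξ i)) := by
          refine prod_le_prod (fun i _ => by positivity) fun i _ => ?_
          have h4 := hkl n₀ i (by rw [hn2]; exact hall i)
          rw [hn2, pow_succ] at h4
          linarith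
        refine h3.trans ?_
        rw [prod_mul_distrib, prod_const, card_univ, Fintype.card_fin]
        exact mul_le_mul_of_nonneg_left hn3 (by positivity)
      · push Not at hall
        obtain ⟨i, hi⟩ := hall
        have h3 : ∏ j, (1 / 2 : ℝ) ^ (v j) ≤ (1 / 2 : ℝ) ^ (v i) := by
          rw [← mul_prod_erase univ _ (mem_univ i)]
          refine mul_le_of_le_one_right (by positivity) ?_
          exact prod_le_one (fun j _ => by positivity) fun j _ => pow_le_one₀ (by norm_num) (by norm_num)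
        have h4 : (1 / 2 : ℝ) ^ (v i) ≤ (1 / 2 : ℝ) ^ K := pow_le_pow_of_le_one (by norm_num) (by norm_num) hi
        have h5 : (1 / 2 : ℝ) ^ K ≤ 1 / N := by
          rw [one_div_pow]
          exact one_div_le_one_div_of_le hN0 hK1'
        have h6 : (1 : ℝ) ≤ 2 ^ m := one_le_pow₀ (by norm_num)
        calc _ ≤ 1 / (N : ℝ) := h3.trans (h4.trans h5)
          _ ≤ T := hT
          _ ≤ 2 ^ m * T := by nlinarith
    have h7 := h1 (2 ^ K) Nat.one_le_two_pow N (fun i => (1 / 2 : ℝ) ^ (v i)) (fun i => by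
      push_cast
      rw [one_div_pow]
      exact one_div_le_one_div_of_le (by positivity)
        (pow_le_pow_right₀ (by norm_num) (Nat.lt_succ_iff.1 (mem_range.1 (hv i)))))
      (fun i => pow_le_one₀ (by norm_num) (by norm_num))
    push_cast at h7
    refine le_trans ?_ (h7.trans ?_)
    · refine Nat.cast_le.2 (card_le_card fun n hn => ?_)
      obtain ⟨ha, hb⟩ := mem_filter.1 hn
      refine mem_filter.2 ⟨(mem_filter.1 ha).1, fun i => ?_⟩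
      rw [← hb]
      exact hkd n i
    · gcongr
  have hcard : (S.card : ℝ) = ∑ v ∈ Fintype.piFinset (fun _ : Fin m => range (K + 1)),
      ((S.filter (fun n => k n = v)).card : ℝ) := by
    exact_mod_cast card_eq_sum_card_fiberwise hmap
  have hcc : ((Fintype.piFinset (fun _ : Fin m => range (K + 1))).card : ℝ) = ((K : ℝ) + 1) ^ m := by
    rw [Fintype.card_piFinset_const, card_range]
    push_cast
    ring
  rw [hcard]
  refine (sum_le_card_nsmul _ _ _ hfib).trans ?_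
  rw [nsmul_eq_mul, hcc]
  have h8 := h2 K
  have h9 : ((2 : ℝ) ^ K) ^ (τ / 2) * ((2 : ℝ) ^ K) ^ (τ / 2) = ((2 : ℝ) ^ K) ^ τ := by
    rw [← Real.rpow_add (by positivity)]
    congr 1
    ring
  have h10 : ((2 : ℝ) ^ K) ^ τ ≤ 2 ^ τ * (N : ℝ) ^ τ := by
    rw [← Real.mul_rpow (by norm_num) hN0.le]
    exact Real.rpow_le_rpow (by positivity) hK2' hτ.le
  calc ((K : ℝ) + 1) ^ m * (C₁ * N * (2 ^ m * T) * ((2 : ℝ) ^ K) ^ (τ / 2)) ≤
        (C₂ * ((2 : ℝ) ^ K) ^ (τ / 2)) * (C₁ * N * (2 ^ m * T) * ((2 : ℝ) ^ K) ^ (τ / 2)) := by gcongr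
    _ = C₂ * C₁ * 2 ^ m * T * N * (((2 : ℝ) ^ K) ^ (τ / 2) * ((2 : ℝ) ^ K) ^ (τ / 2)) := by ring
    _ ≤ C₂ * C₁ * 2 ^ m * T * N * (2 ^ τ * (N : ℝ) ^ τ) := by
        rw [h9]
        gcongr
    _ = C₂ * C₁ * 2 ^ m * 2 ^ τ * T * (N : ℝ) ^ (1 + τ) := by
        rw [Real.rpow_add hN0, Real.rpow_one]
        ring

/-- dyadic summation -/
theorem dyadic (T : ℕ → ℝ) {s C : ℝ} (hs : 0 < s) (hC : 0 ≤ C) (h0 : T 0 ≤ 0)
    (h : ∀ X : ℕ, 1 ≤ X → T X ≤ T (X / 2) + C * (X : ℝ) ^ s) :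
    ∀ X : ℕ, 1 ≤ X → T X ≤ C / (1 - 2 ^ (-s)) * (X : ℝ) ^ s := by
  have hr : (2 : ℝ) ^ (-s) < 1 := Real.rpow_lt_one_of_one_lt_of_neg (by norm_num) (by linarith)
  have hd : 0 < 1 - (2 : ℝ) ^ (-s) := by linarith
  intro X
  induction X using Nat.strong_induction_on with
  | _ X ih =>
    intro hX
    have hX0 : (0 : ℝ) < X := by exact_mod_cast hX
    have h1 := h X hX
    have h2 : T (X / 2) ≤ C / (1 - 2 ^ (-s)) * ((2 : ℝ) ^ (-s) * (X : ℝ) ^ s) := by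
      rcases Nat.eq_zero_or_pos (X / 2) with h3 | h3
      · rw [h3]
        exact h0.trans (by positivity)
      · refine (ih (X / 2) (by omega) h3).trans ?_
        refine mul_le_mul_of_nonneg_left ?_ (by positivity)
        have h4 : ((X / 2 : ℕ) : ℝ) ≤ (X : ℝ) / 2 := by
          have : (2 * (X / 2) : ℕ) ≤ X := by omega
          have h5 : (2 : ℝ) * ((X / 2 : ℕ) : ℝ) ≤ X := by exact_mod_cast this
          linarith
        calc ((X / 2 : ℕ) : ℝ) ^ s ≤ ((X : ℝ) / 2) ^ s := Real.rpow_le_rpow (Nat.cast_nonneg _) h4 hs.le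
          _ = (2 : ℝ) ^ (-s) * (X : ℝ) ^ s := by
            rw [Real.div_rpow hX0.le (by norm_num), Real.rpow_neg (by norm_num)]
            field_simp
    calc T X ≤ C / (1 - 2 ^ (-s)) * ((2 : ℝ) ^ (-s) * (X : ℝ) ^ s) + C * (X : ℝ) ^ s := by linarith
      _ = C / (1 - 2 ^ (-s)) * (X : ℝ) ^ s := by
        field_simp
        ring

/-- The integers with `∏ ‖n ξ i‖ < n ^ (-(1 - η))`. -/
def Bad {m : ℕ} (ξ : Fin m → ℝ) (η : ℝ) : Set ℕ := {n | ∏ i, dn ((n : ℝ) * ξ i) < (n : ℝ) ^ (-(1 - η))}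

open Classical in
theorem count_bad {m : ℕ} {ξ : Fin m → ℝ} (hξ : Cnt ξ) {η : ℝ} (hη : 0 ≤ η) (hη1 : η ≤ 1) (ε : ℝ) (hε : 0 < ε) :
    ∃ C : ℝ, ∀ X : ℕ, 1 ≤ X → (((Ioc 0 X).filter (fun n => n ∈ Bad ξ η)).card : ℝ) ≤ C * (X : ℝ) ^ (η + ε) := by
  obtain ⟨C, hC, h⟩ := count_le hξ hε
  refine ⟨_, dyadic (fun X => (((Ioc 0 X).filter (fun n => n ∈ Bad ξ η)).card : ℝ)) (s := η + ε) (C := 2 * C)
    (by linarith) (by positivity) (by simp) fun X hX => ?_⟩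
  have hX1 : (1 : ℝ) ≤ X := by exact_mod_cast hX
  have hX0 : (0 : ℝ) < X := by linarith
  have hT : 1 / (X : ℝ) ≤ 2 * (X : ℝ) ^ (-(1 - η)) := by
    have h1 : (X : ℝ) ^ (-(1 : ℝ)) ≤ (X : ℝ) ^ (-(1 - η)) := Real.rpow_le_rpow_of_exponent_le hX1 (by linarith)
    rw [Real.rpow_neg_one] at h1
    have h2 : 0 < (X : ℝ) ^ (-(1 - η)) := by positivity
    rw [one_div]
    linarith
  have h1 := h X hX (2 * (X : ℝ) ^ (-(1 - η))) hT
  have h2 : C * (2 * (X : ℝ) ^ (-(1 - η))) * (X : ℝ) ^ (1 + ε) = 2 * C * (X : ℝ) ^ (η + ε) := by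
    have : (X : ℝ) ^ (η + ε) = (X : ℝ) ^ (-(1 - η)) * (X : ℝ) ^ (1 + ε) := by
      rw [← Real.rpow_add hX0]
      congr 1
      ring
    rw [this]
    ring
  rw [h2] at h1
  have hsub : (Ioc 0 X).filter (fun n => n ∈ Bad ξ η) ⊆ (Ioc 0 (X / 2)).filter (fun n => n ∈ Bad ξ η) ∪
      (Icc 1 X).filter (fun n : ℕ => ∏ i, dn ((n : ℝ) * ξ i) ≤ 2 * (X : ℝ) ^ (-(1 - η))) := by
    intro n hn
    rw [mem_filter, mem_Ioc] at hn
    obtain ⟨⟨hn0, hnX⟩, hb⟩ := hn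
    rw [mem_union]
    by_cases hle : n ≤ X / 2
    · left
      exact mem_filter.2 ⟨mem_Ioc.2 ⟨hn0, hle⟩, hb⟩
    · right
      refine mem_filter.2 ⟨mem_Icc.2 ⟨hn0, hnX⟩, ?_⟩
      have hn1 : (X : ℝ) / 2 ≤ n := by
        have : X ≤ 2 * n := by omega
        have h3 : (X : ℝ) ≤ 2 * n := by exact_mod_cast this
        linarith
      have hb' : ∏ i, dn ((n : ℝ) * ξ i) < (n : ℝ) ^ (-(1 - η)) := hb
      refine hb'.le.trans ?_
      have hn0' : (0 : ℝ) < n := by exact_mod_cast hn0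
      calc (n : ℝ) ^ (-(1 - η)) ≤ ((X : ℝ) / 2) ^ (-(1 - η)) :=
            Real.rpow_le_rpow_of_nonpos (by positivity) hn1 (by linarith)
        _ = (2 : ℝ) ^ (1 - η) * (X : ℝ) ^ (-(1 - η)) := by
            rw [Real.div_rpow hX0.le (by norm_num), Real.rpow_neg (by norm_num : (0 : ℝ) ≤ 2)]
            field_simp
        _ ≤ 2 * (X : ℝ) ^ (-(1 - η)) := by
            gcongr
            calc (2 : ℝ) ^ (1 - η) ≤ (2 : ℝ) ^ (1 : ℝ) := Real.rpow_le_rpow_of_exponent_le (by norm_num) (by linarith)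
              _ = 2 := Real.rpow_one 2
  have h3 : (((Ioc 0 X).filter (fun n => n ∈ Bad ξ η)).card : ℝ) ≤
      (((Ioc 0 (X / 2)).filter (fun n => n ∈ Bad ξ η)).card : ℝ) +
        (((Icc 1 X).filter (fun n : ℕ => ∏ i, dn ((n : ℝ) * ξ i) ≤ 2 * (X : ℝ) ^ (-(1 - η)))).card : ℝ) := by
    exact_mod_cast (card_le_card hsub).trans (card_union_le _ _)
  linarith

end Pool.Agent.U300.LX
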