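import Pool.Agent.U449.BV.G
import Pool.Agent.N965.LN.Sch
import Pool.Agent.U300.LX.Cnt

/-!
# Lang's inequality for denominators near values of mixed polynomials on arbitrary sets

Let `ξ` be ANY real algebraic irrational number, `η, κ ≥ 0` and `η + κ < δ ≤ 1`. Let `f(x, y)` be an integer polynomial with a
monomial which contains both variables, `A`, `B` ARBITRARY finite sets of at least `X ^ δ` integers, and `g`, `h` ARBITRARY real
functions such that `|f(a, b) + g(a) + h(b)| ≤ X` on `A × B`. For all the pairs `(a, b)`, apart from a proportion of at most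
`X ^ (-ρ)`, ALL integers `q ≥ 1` with `|q - (f(a, b) + g(a) + h(b))| ≤ X ^ κ` and ALL integers `p` satisfy
`|ξ - p / q| ≥ q ^ (η - 2)`. For `η = 0` this is Lang's inequality with the constant `1` and without the logarithm, and for
`η > 0` it is stronger by a power of `q`. The same holds, with `X = p`, for the least residues of `f(a, b) + g(a) + h(b)` modulo a
prime `p`, where `A`, `B` are arbitrary sets of residues, and more generally for the values `F(a, b)` of all functions of two
variables with few coincidences (`Rare`).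

More generally, let `1, ξ₁, …, ξ_m` be real algebraic numbers which are linearly independent over `ℚ`; then for all but few of
the pairs ALL integers `q ≥ 1` within `X ^ κ` of `F(a, b)` satisfy `‖q ξ₁‖ ⋯ ‖q ξ_m‖ ≥ q ^ (η - 1)`, where `‖x‖` is the distance
of `x` to the nearest integer.

Proof. The number of the `q ≤ X` with `‖q ξ₁‖ ⋯ ‖q ξ_m‖ < q ^ (η - 1)` is `O(X ^ (η + ε))`, by Schmidt's theorem (library) and
Dirichlet's principle. Since the sets and functions are arbitrary, a value can be taken by very many pairs, and so this does not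
give the result directly. New: the inequality of Cauchy and Schwarz; for most pairs `a, a'` the difference
`F(a, b) - F(a', b)` is small for few `b` (`Pool.Agent.U449.BV`).
-/

set_option autoImplicit false

namespace Pool.Agent.U300.LX.Mixed

open Finset
open Pool.Agent.U449.BV (Rare OnProducts on_products_nat polys residues)
open Pool.Agent.U300.LX (Bad count_bad)

/-- ALL `q ≥ 1` with `|q - x| ≤ W` and ALL integers `p` satisfy `|ξ - p / q| ≥ q ^ (η - 2)`. -/
def Near (ξ η : ℝ) (W x : ℝ) : Prop :=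
  ∀ q : ℕ, 1 ≤ q → |(q : ℝ) - x| ≤ W → ∀ p : ℤ, (q : ℝ) ^ (η - 2) ≤ |ξ - p / q|

/-- ALL `q ≥ 1` with `|q - x| ≤ W` satisfy `‖q ξ₁‖ ⋯ ‖q ξ_m‖ ≥ q ^ (η - 1)`. -/
def NearV {m : ℕ} (ξ : Fin m → ℝ) (η : ℝ) (W x : ℝ) : Prop :=
  ∀ q : ℕ, 1 ≤ q → |(q : ℝ) - x| ≤ W → (q : ℝ) ^ (η - 1) ≤ ∏ i, |q * ξ i - round (q * ξ i)|

theorem vector {m : ℕ} (hm : 1 ≤ m) {ξ : Fin m → ℝ} (hξ : ∀ i, IsAlgebraic ℚ (ξ i))
    (hI : ∀ (a : Fin m → ℤ) (a₀ : ℤ), (a₀ : ℝ) + ∑ i, (a i : ℝ) * ξ i = 0 → a = 0) {η κ : ℝ} (hη : 0 ≤ η) (hκ : 0 ≤ κ) :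
    OnProducts (η + κ) κ (NearV ξ η) := by
  classical
  by_cases hη1 : η ≤ 1
  · have hS := Pool.Agent.N965.LN.t_CNT m ξ (Pool.Agent.N965.LN.t_SCH m ξ hm hξ hI)
    refine (on_products_nat (Bad ξ η) (s := η) (κ := κ) hη hκ (fun ε hε => by
      obtain ⟨K, hK⟩ := count_bad hS hη hη1 ε hε
      refine ⟨K, fun X hX => le_trans (le_of_eq ?_) (hK X hX)⟩
      congr!)).mono fun W x _ hg q _ hw => ?_
    by_contra hcon
    refine (hg q hw).2 ?_
    change ∏ i, Pool.Agent.N965.LN.dn ((q : ℝ) * ξ i) < (q : ℝ) ^ (-(1 - η))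
    rw [show -(1 - η) = η - 1 by ring]
    exact not_le.1 hcon
  · intro δ hδ hδ1
    linarith

/-- **Theorem.** (1) For every real algebraic irrational number `ξ`, `η, κ ≥ 0`: the property `Near`, with windows of length
`X ^ κ`, holds for almost all the values of functions of two variables with few coincidences, on arbitrary finite sets of at
least `X ^ δ` elements, `η + κ < δ ≤ 1` (`OnProducts`). (2) The same holds for `NearV`, for all real algebraic numbers such that
`1, ξ₁, …, ξ_m` are linearly independent over `ℚ`. (3) Coincidences are rare for `f(a, b) + g(a) + h(b)`, where `f` is any integer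
polynomial with a monomial which contains both variables, and `g` and `h` are arbitrary real functions, on arbitrary finite
sets of integers. (4) The same is true of the least residues of `f(a, b) + g(a) + h(b)` modulo a prime `p`. -/
theorem result :
    (∀ ξ η κ : ℝ, IsAlgebraic ℚ ξ → Irrational ξ → 0 ≤ η → 0 ≤ κ → OnProducts (η + κ) κ (Near ξ η)) ∧
    (∀ (m : ℕ) (ξ : Fin m → ℝ) (η κ : ℝ), 1 ≤ m → (∀ i, IsAlgebraic ℚ (ξ i)) →
      (∀ (a : Fin m → ℤ) (a₀ : ℤ), (a₀ : ℝ) + ∑ i, (a i : ℝ) * ξ i = 0 → a = 0) → 0 ≤ η → 0 ≤ κ →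
      OnProducts (η + κ) κ (NearV ξ η)) ∧
    (∀ (d : ℕ) (f : MvPolynomial (Fin 2) ℤ), f.totalDegree ≤ d → (∃ m ∈ f.support, m 0 ≠ 0 ∧ m 1 ≠ 0) →
      ∀ (g h : ℤ → ℝ) (A B : Finset ℤ),
        Rare d A B (fun a b => ((MvPolynomial.eval ![a, b] f : ℤ) : ℝ) + g a + h b)) ∧
    ∀ (p : ℕ) [Fact p.Prime] (d : ℕ) (f : MvPolynomial (Fin 2) (ZMod p)), f.totalDegree ≤ d →
      (∃ m ∈ f.support, m 0 ≠ 0 ∧ m 1 ≠ 0) → ∀ (g h : ZMod p → ZMod p) (A B : Finset (ZMod p)),
        Rare d A B (fun a b => (((MvPolynomial.eval ![a, b] f + g a + h b).val : ℕ) : ℝ)) := by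
  refine ⟨fun ξ η κ hξ hI hη hκ => ?_, fun m ξ η κ hm hξ hI hη hκ => vector hm hξ hI hη hκ, polys, residues⟩
  refine (vector (m := 1) (ξ := fun _ => ξ) le_rfl (fun _ => hξ) (fun a a₀ h => ?_) hη hκ).mono
    fun W x _ hg q hq hw p => ?_
  · rw [Fin.sum_univ_one] at h
    funext i
    rw [Subsingleton.elim i 0]
    by_contra hne
    have h0 : (a 0 : ℝ) ≠ 0 := by
      intro h1
      exact hne (by exact_mod_cast h1)
    refine hI ⟨(-a₀ : ℤ) / (a 0 : ℤ), ?_⟩
    push_cast
    rw [div_eq_iff h0]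
    linarith
  · have h1 := hg q hq hw
    rw [Fin.prod_univ_one] at h1
    have hq0 : (0 : ℝ) < q := by exact_mod_cast hq
    have h2 : |q * ξ - round (q * ξ)| ≤ |q * ξ - p| := round_le _ _
    have h3 : |ξ - p / q| = |q * ξ - p| / q := by
      rw [← abs_of_pos hq0, ← abs_div, abs_of_pos hq0]
      congr 1
      field_simp
    rw [h3, le_div_iff₀ hq0]
    refine le_trans (le_of_eq ?_) (h1.trans h2)
    rw [← Real.rpow_add_one hq0.ne']
    congr 1
    ring

end Pool.Agent.U300.LX.Mixed
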